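import Pool.Agent.W2helper81.BY.Stm

/-!
# Project BY, piece BEL2: Belyi's second step
-/

set_option autoImplicit false

namespace Pool.Agent.W2helper12.BY

open Polynomial Pool.Agent.W2helper81.BY

/-- The critical values of `β` in every field of characteristic zero are `0` and `1`. -/
def Crit (β : ℚ[X]) : Prop :=
  ∀ (L : Type) [Field L] [CharZero L] (z : L), aeval z (derivative β) = 0 →
    aeval z β = 0 ∨ aeval z β = 1

/-- Belyi's polynomial. -/
lemma belyi (m n : ℕ) : ∃ f : ℚ[X], f.eval 0 = 0 ∧ f.eval 1 = 0 ∧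
    f.eval (((m + 1 : ℕ) : ℚ) / ((m + 1 : ℕ) + (n + 1 : ℕ))) = 1 ∧ Crit f := by
  set M : ℚ := ((m + 1 : ℕ) : ℚ) with hM
  set N : ℚ := ((n + 1 : ℕ) : ℚ) with hN
  have hM0 : 0 < M := by rw [hM]; positivity
  have hN0 : 0 < N := by rw [hN]; positivity
  have hMN : 0 < M + N := by positivity
  set c : ℚ := (M + N) ^ (m + 1 + (n + 1)) / (M ^ (m + 1) * N ^ (n + 1)) with hc
  have hval : ∀ (L : Type) [Field L] [CharZero L] (z : L), ((M + N : ℚ) : L) * z = (M : L) →
      (c : L) * z ^ (m + 1) * (1 - z) ^ (n + 1) = 1 := by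
    intro L _ _ z hz
    have hMN' : ((M + N : ℚ) : L) ≠ 0 := by
      exact_mod_cast hMN.ne'
    have hM' : (M : L) ≠ 0 := by exact_mod_cast hM0.ne'
    have hN' : (N : L) ≠ 0 := by exact_mod_cast hN0.ne'
    have h1 : ((M + N : ℚ) : L) * (1 - z) = (N : L) := by
      rw [mul_sub, hz]; push_cast; ring
    have h2 : (c : L) = ((M + N : ℚ) : L) ^ (m + 1 + (n + 1)) /
        ((M : L) ^ (m + 1) * (N : L) ^ (n + 1)) := by
      rw [hc]; push_cast; rfl
    rw [h2, div_mul_eq_mul_div, div_mul_eq_mul_div, div_eq_one_iff_eq (by positivity)]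
    rw [← hz, ← h1, mul_pow, mul_pow, pow_add]
    ring
  have hder : derivative (C c * X ^ (m + 1) * (1 - X) ^ (n + 1) : ℚ[X]) =
      C c * X ^ m * (1 - X) ^ n * (C M - C (M + N) * X) := by
    rw [derivative_mul, derivative_mul, derivative_C, derivative_pow, derivative_pow,
      derivative_sub, derivative_one, derivative_X]
    simp only [hM, hN, C_add, C_eq_natCast, Nat.add_sub_cancel]
    push_cast
    ring
  refine ⟨C c * X ^ (m + 1) * (1 - X) ^ (n + 1), by simp, by simp, ?_, ?_⟩
  · have := hval ℚ (M / (M + N)) (by simp; field_simp)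
    simpa using this
  · intro L _ _ z hz
    rw [hder] at hz
    have hz' : (c : L) * z ^ m * (1 - z) ^ n * ((M : L) - ((M + N : ℚ) : L) * z) = 0 := by
      have h := hz
      simp only [map_mul, map_sub, map_pow, aeval_C, aeval_X, map_one, eq_ratCast] at h
      exact h
    have hf : aeval z (C c * X ^ (m + 1) * (1 - X) ^ (n + 1) : ℚ[X]) =
        (c : L) * z ^ (m + 1) * (1 - z) ^ (n + 1) := by
      simp only [map_mul, map_sub, map_pow, aeval_C, aeval_X, map_one, eq_ratCast]
    rw [hf]
    have hc0 : (c : L) ≠ 0 := by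
      have : c ≠ 0 := by rw [hc]; positivity
      exact_mod_cast this
    rcases mul_eq_zero.1 hz' with h | h
    · rcases mul_eq_zero.1 h with h | h
      · rcases mul_eq_zero.1 h with h | h
        · exact absurd h hc0
        · left
          have h5 := eq_zero_of_pow_eq_zero h
          simp [h5]
      · left
        have h5 := eq_zero_of_pow_eq_zero h
        simp [h5]
    · right
      exact hval L z (sub_eq_zero.1 h).symm

lemma crit_comp {β g : ℚ[X]} (hβ : Crit β)
    (hg : ∀ (L : Type) [Field L] [CharZero L] (z : L), aeval z (derivative g) = 0 →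
      aeval (aeval z g) β = 0 ∨ aeval (aeval z g) β = 1) : Crit (β.comp g) := by
  intro L _ _ z hz
  rw [derivative_comp, map_mul, aeval_comp] at hz
  rw [aeval_comp]
  rcases mul_eq_zero.1 hz with h | h
  · exact hg L z h
  · exact hβ L _ h

lemma aeval_rat {L : Type} [Field L] [CharZero L] (β : ℚ[X]) (q : ℚ) :
    aeval (q : L) β = ((β.eval q : ℚ) : L) := by
  have := Polynomial.aeval_algebraMap_apply L q β
  simpa using this

lemma ratio (x : ℚ) (h0 : 0 < x) (h1 : x < 1) : ∃ m n : ℕ,
    x = ((m + 1 : ℕ) : ℚ) / ((m + 1 : ℕ) + (n + 1 : ℕ)) := by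
  have hn0 : 0 < x.num := Rat.num_pos.2 h0
  have hd0 : (0 : ℚ) < x.den := by exact_mod_cast x.den_pos
  have hlt : x.num < x.den := by
    have h2 : (x.num : ℚ) < x.den := by
      have := Rat.num_div_den x
      rw [← this, div_lt_one hd0] at h1
      exact h1
    exact_mod_cast h2
  refine ⟨x.num.toNat - 1, x.den - x.num.toNat - 1, ?_⟩
  have h3 : ((x.num.toNat : ℤ)) = x.num := Int.toNat_of_nonneg hn0.le
  have h4 : x.num.toNat - 1 + 1 = x.num.toNat := by omega
  have h5 : x.num.toNat + (x.den - x.num.toNat - 1 + 1) = x.den := by omega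
  have h6 : ((x.num.toNat : ℚ)) + ((x.den - x.num.toNat - 1 + 1 : ℕ) : ℚ) = x.den := by
    exact_mod_cast h5
  rw [h4, h6]
  have h7 : (x.num.toNat : ℚ) = x.num := by exact_mod_cast h3
  rw [h7]
  exact (Rat.num_div_den x).symm

lemma step (k : ℕ) : ∀ S : Finset ℚ, S.card ≤ k → 0 ∈ S → 1 ∈ S →
    ∃ β : ℚ[X], 0 < β.natDegree ∧ (∀ s ∈ S, β.eval s = 0 ∨ β.eval s = 1) ∧ Crit β := by
  induction k with
  | zero =>
    intro S hS h0 _
    rw [Nat.le_zero, Finset.card_eq_zero] at hS
    subst hS
    simp at h0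
  | succ k ih =>
    intro S hS h0 h1
    by_cases hsub : ∀ s ∈ S, s = 0 ∨ s = 1
    · refine ⟨X, by simp, fun s hs => by simpa using hsub s hs, ?_⟩
      intro L _ _ z hz
      simp at hz
    · push Not at hsub
      obtain ⟨s, hs, hs0, hs1⟩ := hsub
      have hne : S.Nonempty := ⟨0, h0⟩
      set a := S.min' hne with ha
      set b := S.max' hne with hb
      have haS : a ∈ S := S.min'_mem hne
      have hbS : b ∈ S := S.max'_mem hne
      have hla : ∀ x ∈ S, a ≤ x := fun x hx => S.min'_le x hx
      have hlb : ∀ x ∈ S, x ≤ b := fun x hx => S.le_max' x hx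
      have hab : a < b := lt_of_le_of_lt (hla 0 h0) (lt_of_lt_of_le one_pos (hlb 1 h1))
      obtain ⟨t, htS, hat, htb⟩ : ∃ t ∈ S, a < t ∧ t < b := by
        by_cases h : a = 0
        · by_cases h' : b = 1
          · exact ⟨s, hs, lt_of_le_of_ne (hla s hs) (by rw [h]; exact Ne.symm hs0),
              lt_of_le_of_ne (hlb s hs) (by rw [h']; exact hs1)⟩
          · exact ⟨1, h1, lt_of_le_of_lt (hla 0 h0) one_pos,
              lt_of_le_of_ne (hlb 1 h1) (Ne.symm h')⟩
        · exact ⟨0, h0, lt_of_le_of_ne (hla 0 h0) h, lt_of_lt_of_le one_pos (hlb 1 h1)⟩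
      have hba : 0 < b - a := sub_pos.2 hab
      obtain ⟨m, n, hmn⟩ := ratio ((t - a) / (b - a)) (div_pos (sub_pos.2 hat) hba)
        ((div_lt_one hba).2 (by linarith))
      obtain ⟨f, hf0, hf1, hft, hfc⟩ := belyi m n
      rw [← hmn] at hft
      set A : ℚ[X] := C (b - a)⁻¹ * (X - C a) with hA
      have hAe : ∀ x : ℚ, A.eval x = (x - a) / (b - a) := fun x => by
        rw [hA]; simp [div_eq_inv_mul]
      have hga : (f.comp A).eval a = 0 := by
        rw [eval_comp, hAe, sub_self, zero_div, hf0]
      have hgb : (f.comp A).eval b = 0 := by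
        rw [eval_comp, hAe, div_self hba.ne', hf1]
      have hgt : (f.comp A).eval t = 1 := by
        rw [eval_comp, hAe, hft]
      have hgd : 0 < (f.comp A).natDegree := by
        rw [Nat.pos_iff_ne_zero]
        intro h
        rw [eq_C_of_natDegree_eq_zero h] at hga hgt
        rw [eval_C] at hga hgt
        rw [hga] at hgt
        exact zero_ne_one hgt
      have hgc : Crit (f.comp A) := by
        refine crit_comp hfc fun L _ _ z hz => ?_
        exfalso
        have : derivative A = C (b - a)⁻¹ := by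
          rw [hA]; simp
        rw [this, aeval_C, eq_ratCast] at hz
        have h2 : (b - a)⁻¹ ≠ 0 := inv_ne_zero hba.ne'
        exact h2 (by exact_mod_cast hz)
      obtain ⟨β, hβd, hβS, hβc⟩ := ih (S.image fun x => (f.comp A).eval x) (by
        have hlt : (S.image fun x => (f.comp A).eval x).card < S.card := by
          refine lt_of_le_of_ne Finset.card_image_le fun h => ?_
          have := Finset.card_image_iff.1 h haS hbS (by simp only [hga, hgb])
          exact hab.ne this
        omega) (Finset.mem_image.2 ⟨a, haS, hga⟩) (Finset.mem_image.2 ⟨t, htS, hgt⟩)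
      refine ⟨β.comp (f.comp A), ?_, ?_, ?_⟩
      · rw [natDegree_comp]
        exact Nat.mul_pos hβd hgd
      · intro x hx
        rw [eval_comp]
        exact hβS _ (Finset.mem_image.2 ⟨x, hx, rfl⟩)
      · refine crit_comp hβc fun L _ _ z hz => ?_
        rcases hgc L z hz with h | h
        · rw [h]
          have h3 := hβS 0 (Finset.mem_image.2 ⟨a, haS, hga⟩)
          have h4 := aeval_rat (L := L) β 0
          rw [Rat.cast_zero] at h4
          rw [h4]
          rcases h3 with h3 | h3 <;> simp [h3]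
        · rw [h]
          have h3 := hβS 1 (Finset.mem_image.2 ⟨t, htS, hgt⟩)
          have h4 := aeval_rat (L := L) β 1
          rw [Rat.cast_one] at h4
          rw [h4]
          rcases h3 with h3 | h3 <;> simp [h3]

theorem BEL2_ok : P_BEL2 := by
  intro S
  obtain ⟨β, h1, h2, h3⟩ := step _ (insert 0 (insert 1 S)) le_rfl (by simp) (by simp)
  exact ⟨β, h1, fun s hs => h2 s (by simp [hs]), h3⟩

end Pool.Agent.W2helper12.BY
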